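import Mathlib

set_option autoImplicit false

/-!
# Krylov matrices
-/

namespace Thu

/-- the matrix with columns `v, B v, ..., B ^ (n - 1) v` -/
def kry {R : Type*} [CommRing R] {n : ℕ} (B : Matrix (Fin n) (Fin n) R) (v : Fin n → R) :
    Matrix (Fin n) (Fin n) R := Matrix.of fun r j => ((B ^ (j : ℕ)).mulVec v) r

end Thu
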