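import Mathlib

set_option autoImplicit false

/-!
# The height of the ideal of a point of affine space over a domain
-/

namespace Thu

open MvPolynomial

variable {R σ : Type*} [CommRing R] [IsDomain R]

open Classical in
/-- evaluation of the variables in `T` -/
noncomputable def HtC_ev (y : σ → R) (T : Finset σ) : MvPolynomial σ R →ₐ[R] MvPolynomial σ R :=
  aeval fun i => if i ∈ T then C (y i) else X i

theorem HtC_comp (y : σ → R) (T U : Finset σ) (h : T ⊆ U) (f : MvPolynomial σ R) :
    HtC_ev y U (HtC_ev y T f) = HtC_ev y U f := by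
  classical
  have h1 : (HtC_ev y U).comp (HtC_ev y T) = HtC_ev y U := by
    apply MvPolynomial.algHom_ext
    intro i
    by_cases hT : i ∈ T
    · have hU := h hT
      simp [HtC_ev, hT, hU]
    · simp [HtC_ev, hT]
  exact DFunLike.congr_fun h1 f

open Classical in
theorem HtC_lt (y : σ → R) (T : Finset σ) (i : σ) (hi : i ∉ T) :
    RingHom.ker (HtC_ev y T) < RingHom.ker (HtC_ev y (insert i T)) := by
  classical
  refine lt_of_le_of_ne ?_ ?_
  · intro f hf
    rw [RingHom.mem_ker] at hf ⊢
    rw [← HtC_comp y T (insert i T) (Finset.subset_insert _ _), hf, map_zero]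
  · intro h
    have h1 : X i - C (y i) ∈ RingHom.ker (HtC_ev y (insert i T)) := by
      rw [RingHom.mem_ker]
      simp [HtC_ev]
    rw [← h, RingHom.mem_ker] at h1
    have h2 : (X i : MvPolynomial σ R) = C (y i) := by
      simpa [HtC_ev, hi, sub_eq_zero] using h1
    have h3 := congrArg (coeff (Finsupp.single i 1)) h2
    rw [coeff_X, coeff_C] at h3
    have h4 : (0 : σ →₀ ℕ) ≠ Finsupp.single i 1 := by
      intro h5
      have := DFunLike.congr_fun h5 i
      simp at this
    rw [if_neg h4] at h3
    simp at h3

theorem HtC_card (y : σ → R) (T : Finset σ) :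
    (T.card : ℕ∞) ≤ (RingHom.ker (HtC_ev y T)).height := by
  classical
  induction T using Finset.induction_on with
  | empty => simp
  | insert i T hi ih =>
    have h1 : (RingHom.ker (HtC_ev y T)).IsPrime := RingHom.ker_isPrime _
    have h2 : (RingHom.ker (HtC_ev y (insert i T))).IsPrime := RingHom.ker_isPrime _
    rw [Finset.card_insert_of_notMem hi]
    refine le_trans ?_ (Ideal.height_add_one_le_of_lt_of_isPrime (HtC_lt y T i hi))
    push_cast
    exact add_le_add_left ih 1

theorem height_eval [Fintype σ] (y : σ → R) :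
    (Fintype.card σ : ℕ∞) ≤ (RingHom.ker (eval y)).height := by
  classical
  refine le_trans (HtC_card y Finset.univ) (Ideal.height_mono ?_)
  intro f hf
  rw [RingHom.mem_ker] at hf ⊢
  have h1 : (eval y : MvPolynomial σ R →+* R).comp (HtC_ev y Finset.univ : _ →+* _) = eval y := by
    apply MvPolynomial.ringHom_ext
    · intro r
      simp [HtC_ev]
    · intro i
      simp [HtC_ev]
  have h2 := DFunLike.congr_fun h1 f
  rw [RingHom.comp_apply] at h2
  rw [← h2]
  change eval y (HtC_ev y Finset.univ f) = 0
  rw [hf, map_zero]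

end Thu
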