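import Pool.Agent.W_04c03c_h10t.CDef

set_option autoImplicit false

/-!
# Commutation with a matrix which has a cyclic vector: `n ^ 2 - n` equations suffice
-/

namespace Thu

open Matrix

variable {R : Type*} [CommRing R] {n : ℕ}

theorem KryC_mul (Z B : Matrix (Fin n) (Fin n) R) (v : Fin n → R)
    (h : ∀ j, j < n → Z *ᵥ (B ^ j *ᵥ v) = 0) : Z * kry B v = 0 := by
  ext r j
  have h1 := congrFun (h j j.2) r
  rw [Matrix.mul_apply]
  simpa [kry, Matrix.mulVec, dotProduct] using h1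

theorem KryC_det (Z B : Matrix (Fin n) (Fin n) R) (v : Fin n → R)
    (h : ∀ j, j < n → Z *ᵥ (B ^ j *ᵥ v) = 0) : (kry B v).det • Z = 0 := by
  have h1 : Z * kry B v * (kry B v).adjugate = 0 := by
    rw [KryC_mul Z B v h, Matrix.zero_mul]
  rw [Matrix.mul_assoc, Matrix.mul_adjugate, Matrix.mul_smul, Matrix.mul_one] at h1
  exact h1

/-- Cayley-Hamilton: the power `n` is a combination of the lower ones -/
theorem KryC_top (B : Matrix (Fin n) (Fin n) R) :
    ∃ c : ℕ → R, B ^ n = ∑ k ∈ Finset.range n, c k • B ^ k := by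
  nontriviality R
  have h := Matrix.aeval_self_charpoly B
  rw [Polynomial.aeval_eq_sum_range, Matrix.charpoly_natDegree_eq_dim, Fintype.card_fin,
    Finset.sum_range_succ] at h
  have h2 : B.charpoly.coeff n = 1 := by
    have h3 := Matrix.charpoly_monic B
    rw [Polynomial.Monic, Polynomial.leadingCoeff, Matrix.charpoly_natDegree_eq_dim,
      Fintype.card_fin] at h3
    exact h3
  rw [h2, one_smul] at h
  refine ⟨fun k => -B.charpoly.coeff k, ?_⟩
  rw [eq_neg_of_add_eq_zero_right h, ← Finset.sum_neg_distrib]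
  exact Finset.sum_congr rfl fun k _ => (neg_smul _ _).symm

theorem kry_comm (X B : Matrix (Fin n) (Fin n) R) (v : Fin n → R)
    (h : ∀ j, j < n → (X * B ^ j - B ^ j * X) *ᵥ v = 0) :
    (kry B v).det • (X * B - B * X) = 0 := by
  have h0 : ∀ j, j < n → X *ᵥ (B ^ j *ᵥ v) = B ^ j *ᵥ (X *ᵥ v) := by
    intro j hj
    have h1 := h j hj
    rw [Matrix.sub_mulVec, sub_eq_zero] at h1
    rw [Matrix.mulVec_mulVec, Matrix.mulVec_mulVec, h1]
  have h1 : ∀ j, j < n + 1 → X *ᵥ (B ^ j *ᵥ v) = B ^ j *ᵥ (X *ᵥ v) := by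
    intro j hj
    rcases Nat.lt_succ_iff_lt_or_eq.1 hj with hj | rfl
    · exact h0 j hj
    · obtain ⟨c, hc⟩ := KryC_top B
      rw [hc, Matrix.sum_mulVec, Matrix.sum_mulVec, Matrix.mulVec_sum]
      refine Finset.sum_congr rfl fun k hk => ?_
      rw [Matrix.smul_mulVec, Matrix.smul_mulVec, Matrix.mulVec_smul,
        h0 k (Finset.mem_range.1 hk)]
  refine KryC_det _ B v fun j hj => ?_
  have h2 : X *ᵥ (B *ᵥ (B ^ j *ᵥ v)) = X *ᵥ (B ^ (j + 1) *ᵥ v) := by
    rw [Matrix.mulVec_mulVec v B, ← pow_succ']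
  rw [Matrix.sub_mulVec, ← Matrix.mulVec_mulVec, ← Matrix.mulVec_mulVec, h2,
    h1 (j + 1) (by omega), h0 j hj, Matrix.mulVec_mulVec (X *ᵥ v) B, ← pow_succ', sub_self]

end Thu
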