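import Mathlib

set_option autoImplicit false

/-!
# Isolated points in a fibre of codimension one
-/

namespace Thu

/-- If `M` is minimal in the fibre `f` over `t = 0`, then a prime `Q` below `M` which contains `I` but not `t`
is minimal over `I`. -/
theorem minimal_of_fibre {S P : Type*} [CommRing S] [IsNoetherianRing S] [CommRing P]
    (f : S →+* P) (hf : Function.Surjective f) (t : S) (ht : RingHom.ker f = Ideal.span {t})
    (I Q : Ideal S) [Q.IsPrime] (M : Ideal P) (hM : M ∈ (I.map f).minimalPrimes) (hI : I ≤ Q)
    (hQ : Q ≤ M.comap f) (htQ : t ∉ Q) : Q ∈ I.minimalPrimes := by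
  have htf : f t = 0 := by
    rw [← RingHom.mem_ker, ht]
    exact Ideal.mem_span_singleton_self t
  have h1 : Q < M.comap f := by
    refine lt_of_le_of_ne hQ fun h => htQ ?_
    rw [h, Ideal.mem_comap, htf]
    exact M.zero_mem
  have h2 : M.comap f ∈ (Ideal.span (insert t (I : Set S))).minimalPrimes := by
    have h3 : Ideal.span (insert t (I : Set S)) = (I.map f).comap f := by
      rw [Ideal.comap_map_of_surjective f hf, ← RingHom.ker_eq_comap_bot, ht,
        Set.insert_eq, Ideal.span_union, Ideal.span_eq, sup_comm]
    rw [h3, Ideal.comap_minimalPrimes_eq_of_surjective hf]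
    exact ⟨M, hM, rfl⟩
  have h4 := Ideal.mem_minimalPrimes_span_of_mem_minimalPrimes_span_insert h1 t I h2 I hI
    (fun x hx => Ideal.le_radical (Ideal.subset_span (Set.mem_insert_of_mem _ hx)))
  rwa [Ideal.span_eq] at h4

end Thu
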