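import Pool.Agent.W_04c03c_h58t.VDef
import Pool.Agent.W_04c03c_h10t.KryC
import Pool.Agent.W_04c03c_h10t.HtC
import Pool.Agent.W_04c03c_h10t.MinC

set_option autoImplicit false

/-!
# The deformation of a tuple of matrices along a line
-/

namespace Thu

open MvPolynomial

section

variable {K : Type} [Field K] {ι κ : Type} {n : ℕ}

/-- the coordinates of the line `A + t N` -/
noncomputable def lineC (A N : ι → Matrix (Fin n) (Fin n) K) (q : ι × Fin n × Fin n) :
    Polynomial K := Polynomial.C (A q.1 q.2.1 q.2.2) + Polynomial.X * Polynomial.C (N q.1 q.2.1 q.2.2)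

/-- the translation by `- t N` -/
noncomputable def tauC (N : ι → Matrix (Fin n) (Fin n) K) :
    MvPolynomial (ι × Fin n × Fin n) K →+* MvPolynomial (ι × Fin n × Fin n) (Polynomial K) :=
  eval₂Hom (C.comp Polynomial.C) fun q =>
    X q - C (Polynomial.X * Polynomial.C (N q.1 q.2.1 q.2.2))

/-- the value at `t = 0` -/
noncomputable def zeroC (K ι : Type) [Field K] (n : ℕ) :
    MvPolynomial (ι × Fin n × Fin n) (Polynomial K) →+* MvPolynomial (ι × Fin n × Fin n) K :=
  MvPolynomial.map (Polynomial.evalRingHom 0)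

/-- the generic matrices over `K[t]` -/
noncomputable def gC (K : Type) [Field K] {ι : Type} (n : ℕ) (l : ι) :
    Matrix (Fin n) (Fin n) (MvPolynomial (ι × Fin n × Fin n) (Polynomial K)) :=
  fun i j => X (l, i, j)

theorem zeroC_surj : Function.Surjective (zeroC K ι n) :=
  MvPolynomial.map_surjective _ fun a => ⟨Polynomial.C a, by simp⟩

theorem zeroC_ker : RingHom.ker (zeroC K ι n) = Ideal.span {C Polynomial.X} := by
  unfold zeroC
  rw [MvPolynomial.ker_map, Polynomial.ker_evalRingHom, Polynomial.C_0, sub_zero, Ideal.map_span,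
    Set.image_singleton]

theorem zeroC_tau (N : ι → Matrix (Fin n) (Fin n) K) (p : MvPolynomial (ι × Fin n × Fin n) K) :
    zeroC K ι n (tauC N p) = p := by
  have h : (zeroC K ι n).comp (tauC N) = RingHom.id _ := by
    apply MvPolynomial.ringHom_ext
    · intro r
      simp [zeroC, tauC]
    · intro q
      simp [zeroC, tauC]
  exact DFunLike.congr_fun h p

theorem eval_tau (A N : ι → Matrix (Fin n) (Fin n) K) (p : MvPolynomial (ι × Fin n × Fin n) K) :
    eval (lineC A N) (tauC N p) = Polynomial.C (evT A p) := by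
  have h : (eval (lineC A N)).comp (tauC N) = Polynomial.C.comp (evT A : _ →+* K) := by
    apply MvPolynomial.ringHom_ext
    · intro r
      simp [tauC, evT]
    · intro q
      simp [tauC, evT, lineC]
  exact DFunLike.congr_fun h p

theorem evT_zero (A N : ι → Matrix (Fin n) (Fin n) K)
    (f : MvPolynomial (ι × Fin n × Fin n) (Polynomial K)) :
    evT A (zeroC K ι n f) = Polynomial.eval 0 (eval (lineC A N) f) := by
  have h : (evT A : _ →+* K).comp (zeroC K ι n) =
      (Polynomial.evalRingHom 0).comp (eval (lineC A N)) := by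
    apply MvPolynomial.ringHom_ext
    · intro r
      simp [zeroC, evT]
    · intro q
      simp [zeroC, evT, lineC]
  exact DFunLike.congr_fun h f

theorem zeroC_gC (l : ι) : (gC K n l).map (zeroC K ι n) = gm K n l := by
  ext i j
  simp [gC, gm, zeroC]

theorem eval_gC (A N : ι → Matrix (Fin n) (Fin n) K) (l : ι) :
    (gC K n l).map (eval (lineC A N)) =
      (A l).map Polynomial.C + (Polynomial.X : Polynomial K) • (N l).map Polynomial.C := by
  ext i j
  simp [gC, lineC]

/-- the commutators over `K[t]` -/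
noncomputable def comC (K : Type) [Field K] {ι κ : Type} (n : ℕ) (a b : κ → ι)
    (q : κ × Fin n × Fin n) : MvPolynomial (ι × Fin n × Fin n) (Polynomial K) :=
  (gC K n (a q.1) * gC K n (b q.1) - gC K n (b q.1) * gC K n (a q.1)) q.2.1 q.2.2

theorem map_comC (a b : κ → ι) :
    (Ideal.span (Set.range (comC K n a b))).map (zeroC K ι n) = comIdeal K n a b := by
  rw [Ideal.map_span, comIdeal]
  congr 1
  ext p
  have h1 : ∀ q, zeroC K ι n (comC K n a b q) =
      (gm K n (a q.1) * gm K n (b q.1) - gm K n (b q.1) * gm K n (a q.1)) q.2.1 q.2.2 := by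
    intro q
    rw [← zeroC_gC, ← zeroC_gC, ← Matrix.map_mul, ← Matrix.map_mul,
      ← Matrix.map_sub _ (map_sub _)]
    rfl
  constructor
  · rintro ⟨_, ⟨q, rfl⟩, rfl⟩
    exact ⟨q.1, q.2.1, q.2.2, h1 q⟩
  · rintro ⟨i, r, s, rfl⟩
    exact ⟨_, ⟨(i, r, s), rfl⟩, h1 (i, r, s)⟩

end

end Thu
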