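import Mathlib

set_option autoImplicit false

/-!
# Every endomorphism commutes with a cyclic endomorphism (algebraically closed fields)
-/

namespace Thu

open Polynomial

/-- irreducible polynomials over an algebraically closed field -/
theorem CycA_lin {K : Type} [Field K] [IsAlgClosed K] (p : K[X]) (hp : Irreducible p) :
    ∃ l : K, Associated p (X - C l) := by
  have hdeg : p.degree = 1 := IsAlgClosed.degree_eq_one_of_irreducible K hp
  obtain ⟨l, hl⟩ := IsAlgClosed.exists_root p (by rw [hdeg]; exact one_ne_zero)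
  refine ⟨l, ?_⟩
  have h1 : X - C l ∣ p := dvd_iff_isRoot.2 hl
  exact ((irreducible_X_sub_C l).associated_of_dvd hp h1).symm

/-- the evaluation of a polynomial at the transported map -/
theorem CycA_aeval {K V : Type} [Field K] [AddCommGroup V] [Module K V] (A C' : V →ₗ[K] V)
    {ι : Type} (Q : ι → Type) [∀ i, AddCommGroup (Q i)] [∀ i, Module K[X] (Q i)]
    (φ : Module.AEval' A ≃ₗ[K[X]] (∀ i, Q i)) (c : ι → K)
    (hC : ∀ w, φ (Module.AEval'.of A (C' w)) =
      fun i => (X + C (c i) : K[X]) • φ (Module.AEval'.of A w) i) (g : K[X]) :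
    ∀ w, φ (Module.AEval'.of A (aeval C' g w)) =
      fun i => (g.comp (X + C (c i))) • φ (Module.AEval'.of A w) i := by
  have hsm : ∀ (a : K) (w : V), Module.AEval'.of A (a • w) = (C a : K[X]) • Module.AEval'.of A w := by
    intro a w
    rw [map_smul]
    exact (Module.AEval.C_smul A a (Module.AEval'.of A w)).symm
  induction g using Polynomial.induction_on with
  | C a =>
    intro w
    rw [aeval_C, Module.algebraMap_end_apply, hsm, map_smul]
    funext i
    rw [C_comp, Pi.smul_apply]
  | add f g hf hg =>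
    intro w
    rw [map_add, LinearMap.add_apply, map_add, map_add, hf, hg]
    funext i
    rw [Pi.add_apply, add_comp, add_smul]
  | monomial n a h =>
    intro w
    have h1 : aeval C' (C a * X ^ (n + 1)) w = aeval C' (C a * X ^ n) (C' w) := by
      rw [pow_succ, ← mul_assoc, map_mul, aeval_X]
      rfl
    rw [h1, h, hC]
    funext i
    rw [smul_smul, pow_succ, ← mul_assoc, mul_comp (C a * X ^ n) X, X_comp]

/-- Proof. `M := Module.AEval' A` is a finite torsion module over `K[X]`
(`Module.Finite K[X] (Module.AEval' A)` and `Module.AEval.isTorsion_of_finiteDimensional`), so by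
`Module.equiv_directSum_of_isTorsion` there is `φ : M ≃ₗ[K[X]] ⨁ i, K[X] ⧸ span {p i ^ e i}` with `p i`
irreducible, i.e. (`K` algebraically closed) `p i` is associated to `X - C (l i)`; so
`span {p i ^ e i} = span {(X - C (l i)) ^ e i}`. Choose `c : I → K` with `l i + c i` pairwise different
(`K` is infinite). Let `D` be the `K[X]`-linear endomorphism of the direct sum which multiplies the summand
`i` by `X + C (c i)`, `v` the vector with all components `1`, and `C`, `v` the transports by `φ` (and
`Module.AEval'.of`). `C` commutes with `A` because `D` is `K[X]`-linear. If `aeval C g v = 0` then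
`(X - C (l i)) ^ e i` divides `g.comp (X + C (c i))` for every `i`, so `(X - C (l i + c i)) ^ e i` divides `g`
(substitute `X - C (c i)`), these polynomials are pairwise coprime, so their product of degree
`∑ e i = finrank K V` divides `g` (`finrank K (K[X] ⧸ span {q}) = natDegree q`). -/
theorem cyc_mod {K V : Type} [Field K] [IsAlgClosed K] [AddCommGroup V] [Module K V]
    [FiniteDimensional K V] (A : V →ₗ[K] V) :
    ∃ (C : V →ₗ[K] V) (v : V), A ∘ₗ C = C ∘ₗ A ∧
      ∀ g : K[X], aeval C g v = 0 → g.natDegree < Module.finrank K V → g = 0 := by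
  classical
  obtain ⟨ι, hι, p, hp, e, ⟨φ0⟩⟩ := Module.equiv_directSum_of_isTorsion (R := K[X])
    (M := Module.AEval' A) (Module.AEval.isTorsion_of_finiteDimensional K V A)
  have hl := fun i => CycA_lin (p i) (hp i)
  choose l hl using hl
  obtain ⟨φ, -⟩ : ∃ φ : Module.AEval' A ≃ₗ[K[X]]
      (∀ i, K[X] ⧸ Submodule.span K[X] {p i ^ e i}), True :=
    ⟨φ0.trans (DirectSum.linearEquivFunOnFintype K[X] ι _), trivial⟩
  obtain ⟨μ⟩ : Nonempty (ι ↪ K) := ⟨(Fintype.equivFin ι).toEmbedding.trans
    (Fin.valEmbedding.trans (Infinite.natEmbedding K))⟩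
  obtain ⟨c, hc⟩ : ∃ c : ι → K, ∀ i, l i + c i = μ i := ⟨fun i => μ i - l i, fun i => by ring⟩
  obtain ⟨D, hD⟩ : ∃ D : (∀ i, K[X] ⧸ Submodule.span K[X] {p i ^ e i}) →ₗ[K[X]]
      (∀ i, K[X] ⧸ Submodule.span K[X] {p i ^ e i}),
      ∀ w, D w = fun i => (X + Polynomial.C (c i) : K[X]) • w i :=
    ⟨LinearMap.pi fun i => (X + Polynomial.C (c i) : K[X]) • LinearMap.proj i, fun w => rfl⟩
  obtain ⟨Cm, hCm⟩ : ∃ Cm : V →ₗ[K] V, ∀ w, Module.AEval'.of A (Cm w) =
      φ.symm (D (φ (Module.AEval'.of A w))) :=
    ⟨(Module.AEval'.of A).symm.toLinearMap ∘ₗ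
      ((φ.symm.toLinearMap ∘ₗ D ∘ₗ φ.toLinearMap).restrictScalars K) ∘ₗ
      (Module.AEval'.of A).toLinearMap, fun w => by simp⟩
  have hC1 : ∀ w, φ (Module.AEval'.of A (Cm w)) =
      fun i => (X + Polynomial.C (c i) : K[X]) • φ (Module.AEval'.of A w) i := by
    intro w
    rw [hCm, LinearEquiv.apply_symm_apply, hD]
  refine ⟨Cm, (Module.AEval'.of A).symm (φ.symm fun i => Submodule.Quotient.mk 1), ?_, ?_⟩
  · apply LinearMap.ext
    intro w
    apply (Module.AEval'.of A).injective
    rw [LinearMap.comp_apply, LinearMap.comp_apply, ← Module.AEval'.X_smul_of, hCm, hCm,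
      ← Module.AEval'.X_smul_of, map_smul, map_smul, map_smul]
  · intro g hg hdeg
    have h1 := CycA_aeval A Cm _ φ c hC1 g
      ((Module.AEval'.of A).symm (φ.symm fun i => Submodule.Quotient.mk 1))
    rw [hg, map_zero, map_zero, LinearEquiv.apply_symm_apply, LinearEquiv.apply_symm_apply] at h1
    have h2 : ∀ i, (X - Polynomial.C (μ i)) ^ e i ∣ g := by
      intro i
      have h3 := congrFun h1 i
      rw [Pi.zero_apply, ← Submodule.Quotient.mk_smul, eq_comm,
        Submodule.Quotient.mk_eq_zero, smul_eq_mul, mul_one,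
        Submodule.mem_span_singleton] at h3
      obtain ⟨a, ha⟩ := h3
      have h4 : (X - Polynomial.C (l i)) ^ e i ∣ g.comp (X + Polynomial.C (c i)) :=
        ((hl i).pow_pow).symm.dvd.trans ⟨a, by rw [← ha, smul_eq_mul, mul_comm]⟩
      obtain ⟨b, hb⟩ := h4
      have h5 := congrArg (fun f : K[X] => f.comp (X - Polynomial.C (c i))) hb
      simp only [comp_assoc, mul_comp, pow_comp, sub_comp, add_comp, X_comp, C_comp,
        sub_add_cancel, comp_X] at h5
      refine ⟨b.comp (X - Polynomial.C (c i)), ?_⟩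
      rw [h5, ← hc, Polynomial.C_add]
      ring
    have h3 : ∏ i, (X - Polynomial.C (μ i)) ^ e i ∣ g := by
      refine Finset.prod_dvd_of_coprime ?_ fun i _ => h2 i
      intro i _ j _ hij
      refine IsCoprime.pow ?_
      exact Polynomial.isCoprime_X_sub_C_of_isUnit_sub
        (sub_ne_zero.2 fun h => hij (μ.injective h)).isUnit
    by_contra hg0
    have h4 := natDegree_le_of_dvd h3 hg0
    have h5 : (∏ i, (X - Polynomial.C (μ i)) ^ e i).natDegree = ∑ i, e i := by
      rw [natDegree_prod_of_monic _ _ fun i _ => (monic_X_sub_C _).pow _]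
      refine Finset.sum_congr rfl fun i _ => ?_
      rw [natDegree_pow, natDegree_X_sub_C, mul_one]
    have h6 : Module.finrank K V = ∑ i, e i := by
      have e1 : Module.finrank K V = Module.finrank K (Module.AEval' A) :=
        LinearEquiv.finrank_eq (Module.AEval'.of A)
      have hfin : ∀ i, Module.Finite K (K[X] ⧸ Submodule.span K[X] {p i ^ e i}) := by
        intro i
        refine Module.Finite.of_surjective
          (((LinearMap.proj i : (∀ i, K[X] ⧸ Submodule.span K[X] {p i ^ e i}) →ₗ[K[X]] _) ∘ₗ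
            φ.toLinearMap).restrictScalars K) ?_
        intro x
        refine ⟨φ.symm (Pi.single i x), ?_⟩
        simp
      rw [e1, LinearEquiv.finrank_eq (φ.restrictScalars K), Module.finrank_pi_fintype]
      refine Finset.sum_congr rfl fun i _ => ?_
      have e2 : Module.finrank K (K[X] ⧸ Submodule.span K[X] {p i ^ e i}) =
          (p i ^ e i).natDegree := finrank_quotient_span_eq_natDegree
      have e3 : (p i).natDegree = 1 :=
        natDegree_eq_of_degree_eq_some (IsAlgClosed.degree_eq_one_of_irreducible K (hp i))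
      rw [e2, natDegree_pow, e3, mul_one]
    omega

end Thu
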