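import Pool.Agent.W_04c03c_h10t.CDef
import Pool.Agent.W_04c03c_h10t.CycA

set_option autoImplicit false

/-!
# Every matrix commutes with a matrix which has a cyclic vector (algebraically closed fields)
-/

namespace Thu

open Polynomial in
/-- From `cyc_mod` for `V = Fin n → K` and `Matrix.toLin' A` (or `Matrix.mulVecLin`): `C` is the matrix of
the endomorphism. If the determinant of `kry C v` is `0` there is `x ≠ 0` with `kry C v *ᵥ x = 0`
(`Matrix.exists_mulVec_eq_zero_iff`), i.e. `∑ j, x j • C ^ j v = 0`, and `g = ∑ j, C (x j) * X ^ j` contradicts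
`cyc_mod` (`n = 0`: the determinant is `1`). -/
theorem exists_cyc {K : Type} [Field K] [IsAlgClosed K] {n : ℕ} (A : Matrix (Fin n) (Fin n) K) :
    ∃ (C : Matrix (Fin n) (Fin n) K) (v : Fin n → K), A * C = C * A ∧ (kry C v).det ≠ 0 := by
  obtain ⟨T, v, hc, hg⟩ := cyc_mod (Matrix.toLin' A)
  refine ⟨LinearMap.toMatrix' T, v, ?_, ?_⟩
  · have h1 := congrArg LinearMap.toMatrix' hc
    rw [LinearMap.toMatrix'_comp, LinearMap.toMatrix'_comp, LinearMap.toMatrix'_toLin'] at h1
    exact h1
  · intro h
    obtain ⟨x, hx0, hx⟩ := Matrix.exists_mulVec_eq_zero_iff.2 h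
    have hn : 0 < n := by
      rcases Nat.eq_zero_or_pos n with rfl | hn
      · exact absurd (Subsingleton.elim x 0) hx0
      · exact hn
    obtain ⟨g, hgd⟩ : ∃ g : K[X], g = ∑ j : Fin n, C (x j) * X ^ (j : ℕ) := ⟨_, rfl⟩
    have hpow : ∀ j : ℕ, ((LinearMap.toMatrix' T) ^ j).mulVec v = (T ^ j) v := by
      intro j
      have h1 : Matrix.toLin' ((LinearMap.toMatrix' T) ^ j) = T ^ j := by
        rw [Matrix.toLin'_pow, Matrix.toLin'_toMatrix']
      rw [← h1, Matrix.toLin'_apply]
    have hav : aeval T g v = 0 := by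
      rw [hgd, map_sum, LinearMap.sum_apply, ← hx]
      funext r
      rw [Finset.sum_apply]
      unfold Matrix.mulVec dotProduct
      refine Finset.sum_congr rfl fun j _ => ?_
      have h2 : kry (LinearMap.toMatrix' T) v r j = (T ^ (j : ℕ)) v r := by
        show (((LinearMap.toMatrix' T) ^ (j : ℕ)).mulVec v) r = _
        rw [hpow]
      show ((aeval T) (C (x j) * X ^ (j : ℕ))) v r = kry (LinearMap.toMatrix' T) v r j * x j
      rw [h2, map_mul, aeval_C, map_pow, aeval_X]
      simp [Module.algebraMap_end_apply, mul_comm]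
    have hdeg : g.natDegree < Module.finrank K (Fin n → K) := by
      rw [Module.finrank_fin_fun]
      refine lt_of_le_of_lt (b := n - 1) ?_ (by omega)
      rw [hgd]
      refine natDegree_sum_le_of_forall_le _ _ fun j _ => ?_
      exact (natDegree_C_mul_X_pow_le _ _).trans (by omega)
    have hg0 := hg g hav hdeg
    apply hx0
    funext j
    have h3 : g.coeff (j : ℕ) = x j := by
      rw [hgd, finsetSum_coeff]
      simp only [coeff_C_mul_X_pow]
      rw [Finset.sum_eq_single j]
      · rw [if_pos rfl]
      · intro i _ hij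
        rw [if_neg]
        intro h4
        exact hij (Fin.ext h4.symm)
      · intro h4
        exact absurd (Finset.mem_univ j) h4
    rw [← h3, hg0, coeff_zero]
    rfl

end Thu
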