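import Pool.Agent.W_04c03c_h10t.CutA
import Pool.Agent.W_04c03c_h10t.CycB

set_option autoImplicit false

/-!
# The equations of the commutation near a matrix with a cyclic vector
-/

namespace Thu

open MvPolynomial Matrix

theorem kry_map {R S : Type*} [CommRing R] [CommRing S] {n : ℕ} (f : R →+* S)
    (B : Matrix (Fin n) (Fin n) R) (v : Fin n → R) :
    (kry B v).map f = kry (B.map f) (f ∘ v) := by
  ext r j
  simp only [kry, Matrix.map_apply, Matrix.of_apply]
  rw [RingHom.map_mulVec, Matrix.map_pow]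

theorem comm_mem {R : Type*} [CommRing R] {n : ℕ} (J : Ideal R) (X B : Matrix (Fin n) (Fin n) R)
    (v : Fin n → R) (h : ∀ r s, (X * B - B * X) r s ∈ J) (j : ℕ) (r : Fin n) :
    ((X * B ^ j - B ^ j * X) *ᵥ v) r ∈ J := by
  have h1 : Commute (X.map (Ideal.Quotient.mk J)) (B.map (Ideal.Quotient.mk J)) := by
    have h2 : (X * B - B * X).map (Ideal.Quotient.mk J) = 0 := by
      ext r s
      exact Ideal.Quotient.eq_zero_iff_mem.2 (h r s)
    rw [Matrix.map_sub _ (map_sub _), Matrix.map_mul, Matrix.map_mul, sub_eq_zero] at h2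
    exact h2
  have h3 : (X * B ^ j - B ^ j * X).map (Ideal.Quotient.mk J) = 0 := by
    rw [Matrix.map_sub _ (map_sub _), Matrix.map_mul, Matrix.map_mul, Matrix.map_pow,
      (h1.pow_right j).eq, sub_self]
  rw [← Ideal.Quotient.eq_zero_iff_mem, RingHom.map_mulVec, h3]
  simp

theorem mem_of_kry {R : Type*} [CommRing R] {n : ℕ} (q : Ideal R) [q.IsPrime]
    (X B : Matrix (Fin n) (Fin n) R) (v : Fin n → R) (hd : (kry B v).det ∉ q)
    (h : ∀ j, j + 1 < n → ∀ r, ((X * B ^ (j + 1) - B ^ (j + 1) * X) *ᵥ v) r ∈ q) (r s : Fin n) :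
    (X * B - B * X) r s ∈ q := by
  have h1 := kry_comm (X.map (Ideal.Quotient.mk q)) (B.map (Ideal.Quotient.mk q))
    (Ideal.Quotient.mk q ∘ v) (by
      intro j hj
      rcases j with _ | j
      · simp
      · ext r
        have h2 := Ideal.Quotient.eq_zero_iff_mem.2 (h j hj r)
        rw [RingHom.map_mulVec, Matrix.map_sub _ (map_sub _), Matrix.map_mul, Matrix.map_mul,
          Matrix.map_pow] at h2
        exact h2)
  rw [← kry_map, ← RingHom.mapMatrix_apply, ← RingHom.map_det, ← Matrix.map_mul, ← Matrix.map_mul,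
    ← Matrix.map_sub _ (map_sub _)] at h1
  have h2 := congrFun (congrFun h1 r) s
  have h3 : Ideal.Quotient.mk q (kry B v).det * Ideal.Quotient.mk q ((X * B - B * X) r s) = 0 := h2
  rcases mul_eq_zero.1 h3 with h4 | h4
  · exact absurd (Ideal.Quotient.eq_zero_iff_mem.1 h4) hd
  · exact Ideal.Quotient.eq_zero_iff_mem.1 h4

/-- the regularity of the generic point of the line -/
theorem kry_line {K : Type} [Field K] {n : ℕ} (B C : Matrix (Fin n) (Fin n) K) (v : Fin n → K)
    (hv : (kry C v).det ≠ 0) :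
    (kry (B.map Polynomial.C + (Polynomial.X : Polynomial K) • (C - B).map Polynomial.C)
      (Polynomial.C ∘ v)).det ≠ 0 := by
  intro h
  apply hv
  have h1 := congrArg (Polynomial.evalRingHom 1) h
  rw [RingHom.map_det, RingHom.mapMatrix_apply, kry_map, map_zero] at h1
  have h2 : (B.map Polynomial.C + (Polynomial.X : Polynomial K) • (C - B).map Polynomial.C).map
      (Polynomial.evalRingHom 1) = C := by
    ext i j
    simp
  have h3 : (Polynomial.evalRingHom (1 : K)) ∘ (Polynomial.C ∘ v) = v := by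
    ext i
    simp
  rw [h2, h3] at h1
  exact h1

end Thu
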