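import Pool.Agent.W_04c03c_h58t.WDef
import Pool.Agent.W_04c03c_h10t.CutB

set_option autoImplicit false

/-!
# The filling relations on the deformed line
-/

namespace Thu

open MvPolynomial Matrix

theorem mem_of_kry_pow {R : Type*} [CommRing R] {n : ℕ} (q : Ideal R) [q.IsPrime]
    (X B : Matrix (Fin n) (Fin n) R) (v : Fin n → R) (hd : (kry B v).det ∉ q) (e : ℕ)
    (hc : ∀ r s, (X * B - B * X) r s ∈ q) (hz : ∀ r, ((X ^ e - 1) *ᵥ v) r ∈ q) (r s : Fin n) :
    (X ^ e - 1) r s ∈ q := by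
  have h1 : Commute (X.map (Ideal.Quotient.mk q)) (B.map (Ideal.Quotient.mk q)) := by
    have h2 : (X * B - B * X).map (Ideal.Quotient.mk q) = 0 := by
      ext r s
      exact Ideal.Quotient.eq_zero_iff_mem.2 (hc r s)
    rw [Matrix.map_sub _ (map_sub _), Matrix.map_mul, Matrix.map_mul, sub_eq_zero] at h2
    exact h2
  have hZ : (X ^ e - 1).map (Ideal.Quotient.mk q) = (X.map (Ideal.Quotient.mk q)) ^ e - 1 := by
    rw [Matrix.map_sub _ (map_sub _), Matrix.map_pow, Matrix.map_one _ (map_zero _) (map_one _)]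
  have hv : ((X ^ e - 1).map (Ideal.Quotient.mk q)) *ᵥ (Ideal.Quotient.mk q ∘ v) = 0 := by
    ext r
    rw [← RingHom.map_mulVec]
    exact Ideal.Quotient.eq_zero_iff_mem.2 (hz r)
  have hcZ : Commute ((X ^ e - 1).map (Ideal.Quotient.mk q)) (B.map (Ideal.Quotient.mk q)) := by
    rw [hZ]
    exact (h1.pow_left e).sub_left (Commute.one_left _)
  have h3 := KryC_det ((X ^ e - 1).map (Ideal.Quotient.mk q)) (B.map (Ideal.Quotient.mk q))
    (Ideal.Quotient.mk q ∘ v) (by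
      intro j _
      rw [Matrix.mulVec_mulVec, (hcZ.pow_right j).eq, ← Matrix.mulVec_mulVec, hv,
        Matrix.mulVec_zero])
  rw [← kry_map, ← RingHom.mapMatrix_apply, ← RingHom.map_det] at h3
  have h4 := congrFun (congrFun h3 r) s
  have h5 : Ideal.Quotient.mk q (kry B v).det * Ideal.Quotient.mk q ((X ^ e - 1) r s) = 0 := h4
  rcases mul_eq_zero.1 h5 with h6 | h6
  · exact absurd (Ideal.Quotient.eq_zero_iff_mem.1 h6) hd
  · exact Ideal.Quotient.eq_zero_iff_mem.1 h6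

theorem pow_mem_vec {R : Type*} [CommRing R] {n : ℕ} (J : Ideal R) (Z : Matrix (Fin n) (Fin n) R)
    (v : Fin n → R) (h : ∀ r s, Z r s ∈ J) (r : Fin n) : (Z *ᵥ v) r ∈ J := by
  rw [Matrix.mulVec, dotProduct]
  exact Ideal.sum_mem _ fun s _ => Ideal.mul_mem_right _ _ (h r s)

/-- the filling relations over `K[t]` -/
noncomputable def powC (K : Type) [Field K] {ι κ : Type} (n : ℕ) (a : κ → ι) (e : κ → ℕ)
    (q : κ × Fin n × Fin n) : MvPolynomial (ι × Fin n × Fin n) (Polynomial K) :=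
  (gC K n (a q.1) ^ e q.1 - 1) q.2.1 q.2.2

theorem map_fillC {K : Type} [Field K] {ι κ : Type} {n : ℕ} (a b : κ → ι) (e : κ → ℕ) :
    (Ideal.span (Set.range (comC K n a b)) ⊔ Ideal.span (Set.range (powC K n a e))).map
      (zeroC K ι n) = fillIdeal K n a b e := by
  rw [Ideal.map_sup, map_comC, Ideal.map_span, comIdeal, ← Ideal.span_union, fillIdeal]
  congr 1
  ext p
  have h1 : ∀ q, zeroC K ι n (powC K n a e q) = (gm K n (a q.1) ^ e q.1 - 1) q.2.1 q.2.2 := by
    intro q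
    have h2 : (gC K n (a q.1) ^ e q.1 - 1).map (zeroC K ι n) = gm K n (a q.1) ^ e q.1 - 1 := by
      rw [Matrix.map_sub _ (map_sub _), Matrix.map_pow, zeroC_gC,
        Matrix.map_one _ (map_zero _) (map_one _)]
    rw [← h2]
    rfl
  constructor
  · rintro (h | ⟨_, ⟨q, rfl⟩, rfl⟩)
    · exact Or.inl h
    · exact Or.inr ⟨q.1, q.2.1, q.2.2, h1 q⟩
  · rintro (h | ⟨i, r, s, rfl⟩)
    · exact Or.inl h
    · exact Or.inr ⟨_, ⟨(i, r, s), rfl⟩, h1 (i, r, s)⟩

end Thu
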